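import Pool.Agent.Helper88.PP.MoA

/-! # Assembly of the statement on blocks -/

set_option autoImplicit false

open Finset Filter Topology

open scoped Classical

namespace Pool.Agent.Helper88.PP

/-- the points of the window `j` which are coprime to `QQ x` in the class `b` -/
noncomputable def Pw (x H b j : ℕ) : Finset ℕ :=
  (Ioc (j * H) ((j + 1) * H)).filter (fun h => Nat.Coprime (b + h) (QQ x))

theorem Pw_sub {x H b j T : ℕ} (hj : j < T) : Pw x H b j ⊆ Icc 1 (T * H) := by
  intro h hh
  have h1 := mem_Ioc.1 (mem_filter.1 hh).1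
  have h2 : (j + 1) * H ≤ T * H := Nat.mul_le_mul_right H hj
  rw [mem_Icc]
  omega

theorem Pw_disj {x H b j k : ℕ} (hjk : j ≠ k) : Disjoint (Pw x H b j) (Pw x H b k) := by
  rw [Finset.disjoint_left]
  intro h h1 h2
  have g1 := mem_Ioc.1 (mem_filter.1 h1).1
  have g2 := mem_Ioc.1 (mem_filter.1 h2).1
  rcases Nat.lt_or_gt_of_ne hjk with hlt | hlt
  · have : (j + 1) * H ≤ k * H := Nat.mul_le_mul_right H hlt
    omega
  · have : (k + 1) * H ≤ j * H := Nat.mul_le_mul_right H hlt
    omega

/-- few classes `b` are bad -/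
theorem bad_classes (hHB : StmtHB) {x H T : ℕ} {o R B : ℝ} (ho : 0 ≤ o) (hR : 0 < R)
    (hB : (H : ℝ) * ((Nat.totient (QQ x) : ℝ) / QQ x) * o ≤ R / B) (hB0 : 0 < B) :
    (((range (QQ x)).filter (fun b => 2 * ((range T).filter (fun j =>
      ((Pw x H b j).card : ℝ) * o ≤ R)).card < T)).card : ℝ) ≤ 2 * QQ x / B := by
  set Bb := (range (QQ x)).filter (fun b => 2 * ((range T).filter (fun j =>
      ((Pw x H b j).card : ℝ) * o ≤ R)).card < T) with hBb
  have hQ : (0 : ℝ) < QQ x := by exact_mod_cast QQ_pos x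
  rcases Nat.eq_zero_or_pos T with hT | hT
  · subst hT
    have : Bb = ∅ := by
      rw [hBb, Finset.filter_eq_empty_iff]
      intro b _
      omega
    rw [this]
    simp only [Finset.card_empty, Nat.cast_zero]
    positivity
  have hTR : (0 : ℝ) < T := by exact_mod_cast hT
  -- the total
  have htot : ∑ b ∈ range (QQ x), ∑ j ∈ range T, ((Pw x H b j).card : ℝ) =
      T * (H * Nat.totient (QQ x)) := by
    rw [Finset.sum_comm]
    have h1 : ∀ j ∈ range T, ∑ b ∈ range (QQ x), ((Pw x H b j).card : ℝ) =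
        H * Nat.totient (QQ x) := by
      intro j _
      have h2 := hHB (QQ x) (j * H) ((j + 1) * H) (QQ_pos x) (Nat.mul_le_mul_right H (by omega))
      have h3 : (j + 1) * H - j * H = H := by
        rw [Nat.add_mul, one_mul]
        omega
      rw [h3] at h2
      have h4 : ∑ b ∈ range (QQ x), (Pw x H b j).card = H * Nat.totient (QQ x) := h2
      exact_mod_cast h4
    rw [Finset.sum_congr rfl h1, Finset.sum_const, Finset.card_range, nsmul_eq_mul]
  have hlow : (Bb.card : ℝ) * (T / 2 * R) ≤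
      ∑ b ∈ range (QQ x), ∑ j ∈ range T, ((Pw x H b j).card : ℝ) * o := by
    have h1 : ∑ b ∈ Bb, (T / 2 * R : ℝ) ≤ ∑ b ∈ Bb, ∑ j ∈ range T, ((Pw x H b j).card : ℝ) * o := by
      apply Finset.sum_le_sum
      intro b hb
      rw [hBb, mem_filter] at hb
      have h2 := hb.2
      set Jg := (range T).filter (fun j => ((Pw x H b j).card : ℝ) * o ≤ R) with hJg
      have h3 : Jg.card + ((range T).filter (fun j => ¬ ((Pw x H b j).card : ℝ) * o ≤ R)).card
          = T := by
        rw [hJg, Finset.card_filter_add_card_filter_not, Finset.card_range]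
      have h4 : (T : ℝ) / 2 ≤
          (((range T).filter (fun j => ¬ ((Pw x H b j).card : ℝ) * o ≤ R)).card : ℝ) := by
        have h5 : T ≤ 2 * ((range T).filter (fun j => ¬ ((Pw x H b j).card : ℝ) * o ≤ R)).card := by
          omega
        have h6 : (T : ℝ) ≤
            2 * (((range T).filter (fun j => ¬ ((Pw x H b j).card : ℝ) * o ≤ R)).card : ℝ) := by
          exact_mod_cast h5
        linarith
      calc (T / 2 * R : ℝ) ≤
            (((range T).filter (fun j => ¬ ((Pw x H b j).card : ℝ) * o ≤ R)).card : ℝ) * R :=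
            mul_le_mul_of_nonneg_right h4 hR.le
        _ = ∑ j ∈ (range T).filter (fun j => ¬ ((Pw x H b j).card : ℝ) * o ≤ R), R := by
            rw [Finset.sum_const, nsmul_eq_mul]
        _ ≤ ∑ j ∈ (range T).filter (fun j => ¬ ((Pw x H b j).card : ℝ) * o ≤ R),
              ((Pw x H b j).card : ℝ) * o := by
            apply Finset.sum_le_sum
            intro j hj
            exact (not_le.1 (mem_filter.1 hj).2).le
        _ ≤ ∑ j ∈ range T, ((Pw x H b j).card : ℝ) * o := by
            apply Finset.sum_le_sum_of_subset_of_nonneg (Finset.filter_subset _ _)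
            intro j _ _
            positivity
    rw [Finset.sum_const, nsmul_eq_mul] at h1
    refine h1.trans ?_
    apply Finset.sum_le_sum_of_subset_of_nonneg (Finset.filter_subset _ _)
    intro b _ _
    apply Finset.sum_nonneg
    intro j _
    positivity
  have hup : ∑ b ∈ range (QQ x), ∑ j ∈ range T, ((Pw x H b j).card : ℝ) * o ≤
      T * QQ x * (R / B) := by
    have h1 : ∑ b ∈ range (QQ x), ∑ j ∈ range T, ((Pw x H b j).card : ℝ) * o =
        (T * (H * Nat.totient (QQ x))) * o := by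
      rw [← htot, Finset.sum_mul]
      apply Finset.sum_congr rfl
      intro b _
      rw [Finset.sum_mul]
    rw [h1]
    calc (T * (H * (Nat.totient (QQ x) : ℝ))) * o
        = T * QQ x * (H * ((Nat.totient (QQ x) : ℝ) / QQ x) * o) := by field_simp
      _ ≤ _ := mul_le_mul_of_nonneg_left hB (by positivity)
  have h9 := hlow.trans hup
  rw [le_div_iff₀ hB0]
  have h10 : (Bb.card : ℝ) * B * (T / 2 * R) ≤ 2 * QQ x * (T / 2 * R) := by
    calc (Bb.card : ℝ) * B * (T / 2 * R) = (Bb.card : ℝ) * (T / 2 * R) * B := by ring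
      _ ≤ T * QQ x * (R / B) * B := mul_le_mul_of_nonneg_right h9 hB0.le
      _ = 2 * QQ x * (T / 2 * R) := by field_simp
  exact le_of_mul_le_mul_right h10 (by positivity)

/-- a prime after a bad `n` gives a point of the window -/
theorem point_exists {x H b j n p : ℕ} (hn : x / 2 < n) (hx : ⌊Real.log x / 20⌋₊ ≤ x / 2)
    (hb : n % QQ x = b) (hp : p.Prime) (h1 : n + j * H < p) (h2 : p ≤ n + j * H + H) :
    ∃ h ∈ Pw x H b j, (n + h).Prime := by
  refine ⟨p - n, ?_, by rwa [show n + (p - n) = p by omega]⟩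
  unfold Pw
  rw [mem_filter, mem_Ioc]
  refine ⟨⟨by omega, by rw [Nat.add_mul, one_mul]; omega⟩, ?_⟩
  have hc : Nat.Coprime p (QQ x) := coprime_QQ hp (by omega)
  have h3 : (b + (p - n)) % QQ x = p % QQ x := by
    rw [← hb, Nat.mod_add_mod]
    congr 1
    omega
  have h4 : Nat.gcd (b + (p - n)) (QQ x) = Nat.gcd p (QQ x) := by
    rw [Nat.gcd_comm, Nat.gcd_rec, h3, ← Nat.gcd_rec, Nat.gcd_comm]
  unfold Nat.Coprime at hc ⊢
  rw [h4]
  exact hc

theorem mo (hTL : StmtTL) (hS1 : StmtS1) (hS2 : StmtS2) (hS3 : StmtS3) (hS4 : StmtS4)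
    (hRH : StmtRH) (hHB : StmtHB) (hMU : StmtMU) (hCH : StmtCH) : StmtMO := by
  intro lam hlam η hη
  obtain ⟨CM, hCM, hMU⟩ := hMU
  obtain ⟨ct, hct, hTL⟩ := hTL
  have hlam0 : 0 < lam := by linarith
  set B : ℝ := 8 / η with hB
  have hB0 : 0 < B := by positivity
  set A : ℝ := CM * lam * B with hA
  have hA0 : 0 < A := by positivity
  set ε : ℝ := min 1 (η / 72) with hε
  have hε0 : 0 < ε := lt_min one_pos (by positivity)
  have hε1 : ε ≤ 1 := min_le_left _ _
  have hε2 : ε ≤ η / 72 := min_le_right _ _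
  obtain ⟨L, hL1, hS2⟩ := hS2 A ε hA0 hε0
  obtain ⟨q, hq⟩ := hRH L
  have hq1 : GoodR 1 q := hq.mono hL1
  obtain ⟨E1, hS1⟩ := hS1 q hq1 A ε hA0 hε0
  obtain ⟨E2, hS2⟩ := hS2 q hq
  obtain ⟨E3, hS3⟩ := hS3 q hq1 A ε hA0 hε0
  obtain ⟨E4, hS4⟩ := hS4 q hq1 A hA0
  obtain ⟨E5, hTL⟩ := hTL 0
  obtain ⟨E6, hE6⟩ : ∃ E6 : ℕ, ∀ E : ℕ, E6 ≤ E → Real.exp (-(ct * E)) ≤ ε := by
    have h1 : Tendsto (fun E : ℕ => Real.exp (-(ct * (E : ℝ)))) atTop (𝓝 0) :=
      Real.tendsto_exp_atBot.comp (tendsto_neg_atTop_atBot.comp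
        (tendsto_natCast_atTop_atTop.const_mul_atTop hct))
    obtain ⟨E6, h⟩ := (h1.eventually (gt_mem_nhds hε0)).exists_forall_of_atTop
    exact ⟨E6, fun E hE => (h E hE).le⟩
  set E : ℕ := E1 + E2 + E3 + E4 + E5 + E6 + 1 with hE
  obtain ⟨z1, hS1⟩ := hS1 E (by omega)
  obtain ⟨z2, hS2⟩ := hS2 E (by omega)
  obtain ⟨z3, hS3⟩ := hS3 E (by omega)
  obtain ⟨C4, z4, hS4⟩ := hS4 E (by omega)
  obtain ⟨z5, hTL⟩ := hTL E (by omega)
  have hE6' := hE6 E (by omega)
  set C : ℝ := max C4 0 with hC
  have hC0 : 0 ≤ C := le_max_right _ _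
  set T : ℕ := ⌈32 * C / η⌉₊ + 1 with hT
  have hT1 : 1 ≤ T := by omega
  have hTR : (0 : ℝ) < T := by exact_mod_cast hT1
  have hTC : 8 * C / T ≤ η / 4 := by
    rw [div_le_div_iff₀ hTR (by norm_num)]
    have h1 : 32 * C / η ≤ T := by
      rw [hT]
      push_cast
      linarith [Nat.le_ceil (32 * C / η)]
    rw [div_le_iff₀ hη] at h1
    linarith
  obtain ⟨z6, hMU⟩ := hMU lam hlam T E hT1 (by omega)
  set z0 : ℕ := z1 + z2 + z3 + z4 + z5 + z6 with hz0
  refine ⟨T, ?_⟩
  -- conditions on `x`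
  have hlog : Tendsto (fun x : ℕ => Real.log (x : ℝ)) atTop atTop :=
    Real.tendsto_log_atTop.comp tendsto_natCast_atTop_atTop
  have hE1 : 1 ≤ E := by omega
  filter_upwards [hlog.eventually_ge_atTop (T * (lam + 1)), hlog.eventually_ge_atTop 1,
    eventually_ge_atTop (z0 ^ E), eventually_ge_atTop 8] with x hx1 hx2 hx3 hx4
  set H : ℕ := ⌈lam * Real.log x⌉₊ with hH
  obtain ⟨z, hzz0, hzx, hxz⟩ := root_exists E z0 x hE1 hx3
  have hHge : lam * Real.log x ≤ H := Nat.le_ceil _
  have hHlt : (H : ℝ) < lam * Real.log x + 1 := Nat.ceil_lt_add_one (by positivity)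
  have hlx0 : 0 < Real.log x := by linarith
  have hSc : Sc E z x (T * H) := by
    refine ⟨hzx, hxz, ?_, ?_⟩
    · push_cast
      have h1 : Real.log x ≤ H := le_trans (by nlinarith) hHge
      have h2 : (1 : ℝ) ≤ T := by exact_mod_cast hT1
      nlinarith
    · push_cast
      have h1 : (T : ℝ) * H ≤ T * (lam * Real.log x + 1) :=
        mul_le_mul_of_nonneg_left hHlt.le hTR.le
      have h2 : T * (lam * Real.log x + 1) ≤ T * (lam + 1) * Real.log x := by
        have : (T : ℝ) * 1 ≤ T * Real.log x := mul_le_mul_of_nonneg_left hx2 hTR.le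
        nlinarith
      have h3 : T * (lam + 1) * Real.log x ≤ Real.log x * Real.log x :=
        mul_le_mul_of_nonneg_right hx1 hlx0.le
      nlinarith
  have hmu := hMU z (by omega) x hzx hxz
  set y : ℕ := T * H with hy
  set o : ℝ := om y z with ho
  have ho0 : 0 ≤ o := om_nonneg _ _
  have hAE : (0 : ℝ) < A * E := by
    have : (0 : ℝ) < E := by exact_mod_cast hE1
    positivity
  have hbad := bad_classes hHB (x := x) (H := H) (T := T) (o := o) (R := A * E) (B := B) ho0 hAE
    (by
      have h1 : A * E / B = CM * lam * E := by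
        rw [hA]
        field_simp
      rw [h1]
      exact hmu) hB0
  -- the classes
  set Jb : ℕ → Finset ℕ := fun b => (range T).filter (fun j =>
      ((Pw x H b j).card : ℝ) * o ≤ A * E) with hJb
  set Bb := (range (QQ x)).filter (fun b => 2 * (Jb b).card < T) with hBb
  set S := (Ioc (x / 2) x).filter (fun n => ∀ t, t ≤ T * H →
    ∃ p, p.Prime ∧ n + t < p ∧ p ≤ n + t + H) with hS
  have hQ : 0 < QQ x := QQ_pos x
  have hQR : (0 : ℝ) < QQ x := by exact_mod_cast hQ
  have hX := XX_nonneg x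
  have hNb : ∀ b ∈ range (QQ x), ((NN x b).card : ℝ) ≤ (1 + ε) * XX x := by
    intro b hb
    have h1 := (hTL z (by omega) x y hSc b (mem_range.1 hb) ∅ (by simp) (by simp) (fun _ => 1)
      (by simp) (by
        simp only [Finset.prod_empty]
        apply Nat.one_le_pow
        rcases Nat.eq_zero_or_pos z with h | h
        · exfalso
          rw [h, zero_add, one_pow] at hxz
          omega
        · exact h)).1 (by simp)
    simp only [Finset.prod_empty, mul_one] at h1
    have h2 : (NN x b).filter (fun n => ∀ i ∈ (∅ : Finset ℕ), 1 ∣ n + i ∧ Rg y z (n + i)) =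
        NN x b := by
      apply Finset.filter_true_of_mem
      intro n _ i hi
      simp at hi
    rw [h2] at h1
    have h3 := (abs_le.1 h1).2
    have h4 : Real.exp (-(ct * E)) * XX x ≤ ε * XX x := mul_le_mul_of_nonneg_right hE6' hX
    linarith
  have hfib : (S.card : ℝ) = ∑ b ∈ range (QQ x), ((S.filter (fun n => n % QQ x = b)).card : ℝ) := by
    have h1 : S.card = ∑ b ∈ range (QQ x), (S.filter (fun n => n % QQ x = b)).card :=
      Finset.card_eq_sum_card_fiberwise (fun n _ => by
        simp only [Finset.coe_range, Set.mem_Iio]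
        exact Nat.mod_lt _ hQ)
    exact_mod_cast h1
  have hsub : ∀ b, S.filter (fun n => n % QQ x = b) ⊆ NN x b := by
    intro b n hn
    rw [mem_filter, hS, mem_filter] at hn
    exact mem_filter.2 ⟨hn.1.1, hn.2⟩
  have hgood : ∀ b ∈ range (QQ x), b ∉ Bb →
      ((S.filter (fun n => n % QQ x = b)).card : ℝ) ≤ (18 * ε + 8 * C / T) * XX x := by
    intro b hb hbb
    have hJ2 : T ≤ 2 * (Jb b).card := by
      by_contra hcon
      push Not at hcon
      exact hbb (mem_filter.2 ⟨hb, hcon⟩)
    have hJne : (Jb b).Nonempty := by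
      rw [← Finset.card_pos]
      omega
    have hmemJ : ∀ j ∈ Jb b, j < T ∧ ((Pw x H b j).card : ℝ) * om y z ≤ A * E := by
      intro j hj
      rw [hJb, mem_filter, mem_range] at hj
      exact hj
    have hb' := mem_range.1 hb
    have key := class_bound hCH (q := q) (E := E) (z := z) (y := y) (x := x) (b := b) (T := T)
      (H := H) hε0.le hC0 (Jb b) hJne (Pw x H b) (hNb b hb)
      (fun j hj => (hS1 z (by omega) x y hSc b hb' _ (Pw_sub (hmemJ j hj).1) (hmemJ j hj).2).1)
      (fun j hj => (hS1 z (by omega) x y hSc b hb' _ (Pw_sub (hmemJ j hj).1) (hmemJ j hj).2).2)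
      (fun j hj => hS2 z (by omega) x y hSc b hb' _ (Pw_sub (hmemJ j hj).1) (hmemJ j hj).2)
      (fun j hj k hk hjk => hS3 z (by omega) x y hSc b hb' _ _ (Pw_sub (hmemJ j hj).1)
        (Pw_sub (hmemJ k hk).1) (Pw_disj hjk) (hmemJ j hj).2 (hmemJ k hk).2)
      (fun j hj => (hS4 z (by omega) x y hSc b hb' _ (Pw_sub (hmemJ j hj).1)
        (hmemJ j hj).2).trans (mul_le_mul_of_nonneg_right (le_max_left _ _) hX))
      (S.filter (fun n => n % QQ x = b)) (hsub b) (by
        intro n hn j hj
        rw [mem_filter, hS, mem_filter] at hn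
        obtain ⟨⟨hn1, hn2⟩, hn3⟩ := hn
        have hjT := (hmemJ j hj).1
        obtain ⟨p, hp, hp1, hp2⟩ := hn2 (j * H) (Nat.mul_le_mul_right H hjT.le)
        refine point_exists (mem_Ioc.1 hn1).1 ?_ hn3 hp hp1 hp2
        have h1 : ⌊Real.log x / 20⌋₊ ≤ x / 4 := by
          apply Nat.floor_le_of_le
          have h2 : Real.log x ≤ x := (Real.log_le_sub_one_of_pos (by
            have : (8 : ℝ) ≤ x := by exact_mod_cast hx4
            linarith)).trans (by linarith)
          have h3 : (x : ℝ) ≤ 4 * ((x / 4 : ℕ) : ℝ) + 3 := by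
            have : x ≤ 4 * (x / 4) + 3 := by omega
            exact_mod_cast this
          have h4 : (2 : ℝ) ≤ ((x / 4 : ℕ) : ℝ) := by
            have : 2 ≤ x / 4 := by omega
            exact_mod_cast this
          linarith
        omega)
    refine key.trans (mul_le_mul_of_nonneg_right ?_ hX)
    have hJR : (T : ℝ) ≤ 2 * ((Jb b).card : ℝ) := by exact_mod_cast hJ2
    have hJpos : (0 : ℝ) < ((Jb b).card : ℝ) := by linarith
    have h5 : 4 * C / ((Jb b).card : ℝ) ≤ 8 * C / T := by
      rw [div_le_div_iff₀ hJpos hTR]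
      nlinarith
    linarith
  have hsum : (S.card : ℝ) ≤ QQ x * ((18 * ε + 8 * C / T) * XX x) + Bb.card * (2 * XX x) := by
    rw [hfib, ← Finset.sum_filter_add_sum_filter_not (range (QQ x)) (fun b => b ∈ Bb)]
    have h1 : ∑ b ∈ (range (QQ x)).filter (fun b => b ∈ Bb),
        ((S.filter (fun n => n % QQ x = b)).card : ℝ) ≤ Bb.card * (2 * XX x) := by
      have h2 : (range (QQ x)).filter (fun b => b ∈ Bb) = Bb := by
        ext b
        rw [mem_filter]
        constructor
        · exact fun h => h.2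
        · exact fun h => ⟨(mem_filter.1 h).1, h⟩
      rw [h2, ← nsmul_eq_mul, ← Finset.sum_const]
      apply Finset.sum_le_sum
      intro b hb
      have h3 : ((S.filter (fun n => n % QQ x = b)).card : ℝ) ≤ ((NN x b).card : ℝ) := by
        exact_mod_cast Finset.card_le_card (hsub b)
      have h4 := hNb b (mem_filter.1 hb).1
      nlinarith
    have h5 : ∑ b ∈ (range (QQ x)).filter (fun b => ¬ b ∈ Bb),
        ((S.filter (fun n => n % QQ x = b)).card : ℝ) ≤
        QQ x * ((18 * ε + 8 * C / T) * XX x) := by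
      calc ∑ b ∈ (range (QQ x)).filter (fun b => ¬ b ∈ Bb),
            ((S.filter (fun n => n % QQ x = b)).card : ℝ)
          ≤ ∑ b ∈ (range (QQ x)).filter (fun b => ¬ b ∈ Bb), ((18 * ε + 8 * C / T) * XX x) := by
            apply Finset.sum_le_sum
            intro b hb
            exact hgood b (mem_filter.1 hb).1 (mem_filter.1 hb).2
        _ ≤ ∑ b ∈ range (QQ x), ((18 * ε + 8 * C / T) * XX x) := by
            apply Finset.sum_le_sum_of_subset_of_nonneg (Finset.filter_subset _ _)
            intro b _ _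
            positivity
        _ = _ := by rw [Finset.sum_const, Finset.card_range, nsmul_eq_mul]
    linarith
  have hhalf : ((x - x / 2 : ℕ) : ℝ) ≤ x := by exact_mod_cast Nat.sub_le _ _
  have hx0 : (0 : ℝ) ≤ x := Nat.cast_nonneg _
  have hQX := QQ_mul_XX x
  have hBbc : (Bb.card : ℝ) ≤ 2 * QQ x / B := hbad
  have h7 : (Bb.card : ℝ) * (2 * XX x) ≤ η / 2 * x := by
    calc (Bb.card : ℝ) * (2 * XX x) ≤ 2 * QQ x / B * (2 * XX x) :=
          mul_le_mul_of_nonneg_right hBbc (by positivity)
      _ = η / 2 * (QQ x * XX x) := by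
          rw [hB]
          field_simp
          ring
      _ ≤ η / 2 * x := by
          rw [hQX]
          exact mul_le_mul_of_nonneg_left hhalf (by positivity)
  have h8 : QQ x * ((18 * ε + 8 * C / T) * XX x) ≤ η / 2 * x := by
    calc QQ x * ((18 * ε + 8 * C / T) * XX x) = (18 * ε + 8 * C / T) * (QQ x * XX x) := by ring
      _ ≤ (η / 2) * (QQ x * XX x) := by
          apply mul_le_mul_of_nonneg_right _ (by positivity)
          linarith
      _ ≤ η / 2 * x := by
          rw [hQX]
          exact mul_le_mul_of_nonneg_left hhalf (by positivity)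
  linarith

end Pool.Agent.Helper88.PP
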