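import Pool.Agent.Helper90.TwinS

/-! # The fundamental lemma with an explicit dependence of the level on the error
(the proof of `Helper90.Twin.fundamental`) -/

set_option autoImplicit false

open Finset Filter Topology

namespace Pool.Agent.Helper88.PP

open Pool.Agent.Helper90.Twin

/-- the fundamental lemma -/
theorem fundM {κ : ℝ} (hκ : 1 ≤ κ) {δ : ℝ} {A : ℝ} (hA : 0 ≤ A) (M : ℕ) (hModd : Odd M)
    (hM : Real.exp (2 * κ * 12) * Real.exp (κ * 12) *
      ((κ * 12) ^ M / (M.factorial : ℝ)) ≤ min (δ / 2) (1 / 2)) :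
    ∀ᶠ z : ℕ in atTop, ∀ w : ℕ → ℕ → ℝ, Adm w κ → ∀ N : ℕ,
      |∑ t ∈ range N, ∏ p ∈ Ps z, (1 - w p t) - N * ∏ p ∈ Ps z, (1 - nu w p / p)|
        ≤ δ * (N * ∏ p ∈ Ps z, (1 - nu w p / p))
          + (N * Real.exp (-(A * Sz z)) + (z : ℝ) ^ (4 * ⌈Real.exp 2 * κ + A + 1⌉₊ + 4 * M + 11))
          := by
  have hκ0 : 0 < κ := by linarith
  set Bn : ℕ := ⌈Real.exp 2 * κ + A + 1⌉₊ with hBn
  have hBn1 : Real.exp 2 * κ + A + 1 ≤ Bn := Nat.le_ceil _
  filter_upwards [tendsto_Sz.eventually_ge_atTop 2,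
    eventually_Sz_le (c := 2 * Real.log (2 * κ + 3))
      (mul_pos (by norm_num) (Real.log_pos (by linarith))) (2 * Real.log (2 * κ + 3)),
    eventually_Sz_le (c := 2) (by norm_num) 4, eventually_ge_atTop 5] with z hS2 hSlog hSlog2 hz5
  intro w hadm N
  set S := Sz z with hSdef
  set J := Nat.log 2 ⌈S⌉₊ + 1 with hJ
  have hz0 : (5 : ℝ) ≤ z := by exact_mod_cast hz5
  have hceil : ⌈S⌉₊ ≠ 0 := by
    have : 0 < ⌈S⌉₊ := Nat.ceil_pos.2 (by linarith)
    omega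
  have hJ1 : S ≤ ((2 ^ J : ℕ) : ℝ) := by
    have h1 : ⌈S⌉₊ < 2 ^ J := Nat.lt_pow_succ_log_self (by norm_num) _
    have h2 : (⌈S⌉₊ : ℝ) ≤ ((2 ^ J : ℕ) : ℝ) := by exact_mod_cast h1.le
    exact (Nat.le_ceil S).trans h2
  have hJ2 : ((2 ^ J : ℕ) : ℝ) ≤ 2 * S + 2 := by
    have h1 : 2 ^ Nat.log 2 ⌈S⌉₊ ≤ ⌈S⌉₊ := Nat.pow_log_le_self 2 hceil
    have h2 : ((2 ^ J : ℕ) : ℝ) ≤ 2 * (⌈S⌉₊ : ℝ) := by
      have : 2 ^ J ≤ 2 * ⌈S⌉₊ := by
        rw [hJ, pow_succ]
        omega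
      exact_mod_cast this
    have h3 : (⌈S⌉₊ : ℝ) < S + 1 := Nat.ceil_lt_add_one (by linarith)
    linarith
  set b := Nat.sqrt^[J] z with hb
  have hbz : b ≤ z := iterate_sqrt_le J z
  have hb1 : 2 * κ + 2 ≤ (b : ℝ) := by
    by_contra hcon
    push Not at hcon
    have h1 : (z : ℝ) < ((b : ℝ) + 1) ^ (2 ^ J) := by
      exact_mod_cast lt_iterate_sqrt_pow J z
    have h2 : Real.log z < ((2 ^ J : ℕ) : ℝ) * Real.log ((b : ℝ) + 1) := by
      rw [← Real.log_pow]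
      exact Real.log_lt_log (by linarith) h1
    have h3 : Real.log ((b : ℝ) + 1) ≤ Real.log (2 * κ + 3) :=
      Real.log_le_log (by positivity) (by linarith)
    have h4 : ((2 ^ J : ℕ) : ℝ) * Real.log ((b : ℝ) + 1) ≤ (2 * S + 2) * Real.log (2 * κ + 3) := by
      apply mul_le_mul hJ2 h3 (Real.log_nonneg (by
        have : (0 : ℝ) ≤ b := Nat.cast_nonneg _
        linarith)) (by linarith)
    linarith
  set m0 := 2 * (Bn * 2 ^ J) + 1 with hm0
  have hm0odd : Odd m0 := odd_two_mul_add_one _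
  set e := Real.exp (-((A + 1) * S)) with he
  have he0 : 0 ≤ e := (Real.exp_pos _).le
  -- the initial error
  have hEE : EE (Ps b) (fun p => nu w p / p) m0 ≤ e := by
    have hr0 : ∀ p ∈ Ps b, 0 ≤ nu w p / p := fun p hp =>
      hadm.frac_nonneg (mem_Ps.1 hp).2.2 (mem_Ps.1 hp).1
    have h1 : ∑ p ∈ Ps b, nu w p / p ≤ κ * S := by
      calc ∑ p ∈ Ps b, nu w p / p ≤ ∑ p ∈ Ps b, κ * (1 / (p : ℝ)) := by
            apply Finset.sum_le_sum
            intro p hp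
            rw [mul_one_div]
            exact div_le_div_of_nonneg_right
              (hadm.nu_le p (mem_Ps.1 hp).2.2 (mem_Ps.1 hp).1) (Nat.cast_nonneg _)
        _ = κ * Sz b := by rw [← Finset.mul_sum]; rfl
        _ ≤ _ := mul_le_mul_of_nonneg_left (Sz_mono hbz) hκ0.le
    have h0 : 0 ≤ ∑ p ∈ Ps b, nu w p / p := Finset.sum_nonneg hr0
    have hκS : 0 ≤ κ * S := h0.trans h1
    calc EE (Ps b) (fun p => nu w p / p) m0
        ≤ (∑ p ∈ Ps b, nu w p / p) ^ m0 / (m0.factorial : ℝ) := EE_le hr0 m0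
      _ ≤ (κ * S) ^ m0 / (m0.factorial : ℝ) := by
          apply div_le_div_of_nonneg_right _ (by positivity)
          exact pow_le_pow_left₀ h0 h1 m0
      _ = (Real.exp 2 * (κ * S)) ^ m0 / (m0.factorial : ℝ) * Real.exp (-(2 * m0)) := by
          rw [mul_pow (Real.exp 2) (κ * S) m0, ← Real.exp_nat_mul]
          have h13 : Real.exp ((m0 : ℝ) * 2) * Real.exp (-(2 * m0)) = 1 := by
            rw [← Real.exp_add]
            rw [show (m0 : ℝ) * 2 + -(2 * m0) = 0 by ring, Real.exp_zero]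
          calc (κ * S) ^ m0 / (m0.factorial : ℝ)
              = (κ * S) ^ m0 / (m0.factorial : ℝ) * (Real.exp ((m0 : ℝ) * 2)
                * Real.exp (-(2 * m0))) := by rw [h13, mul_one]
            _ = _ := by ring
      _ ≤ Real.exp (Real.exp 2 * (κ * S)) * Real.exp (-(2 * m0)) := by
          apply mul_le_mul_of_nonneg_right _ (Real.exp_pos _).le
          exact Real.pow_div_factorial_le_exp _ (by positivity) m0
      _ = Real.exp (Real.exp 2 * (κ * S) + -(2 * m0)) := (Real.exp_add _ _).symm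
      _ ≤ e := by
          apply Real.exp_le_exp.2
          have h2 : (Bn : ℝ) * S ≤ m0 := by
            have h3 : (Bn : ℝ) * S ≤ Bn * ((2 ^ J : ℕ) : ℝ) :=
              mul_le_mul_of_nonneg_left hJ1 (Nat.cast_nonneg _)
            have h4 : (Bn : ℝ) * ((2 ^ J : ℕ) : ℝ) ≤ m0 := by
              have : Bn * 2 ^ J ≤ m0 := by rw [hm0]; omega
              exact_mod_cast this
            linarith
          have h5 : (Real.exp 2 * κ + A + 1) * S ≤ Bn * S :=
            mul_le_mul_of_nonneg_right hBn1 (by linarith)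
          have h6 : (0 : ℝ) ≤ m0 := Nat.cast_nonneg _
          linarith
  have hsv := sv_rec hκ hadm.nonneg hadm.le_one hadm.per hadm.nu_le hm0odd he0 J z M hModd hb1 hEE
  set W := ∏ p ∈ Ps z, (1 - nu w p / p) with hW
  have hW0 : 0 ≤ W := Finset.prod_nonneg (fun p hp => by
    linarith [hadm.frac_le (mem_Ps.1 hp).2.2 (mem_Ps.1 hp).1])
  have hsg0 := sg_nonneg hκ0.le J M
  have hsg1 := (sg_le hκ0.le J M).trans hM
  have hsg2 : sg κ J M ≤ δ / 2 := hsg1.trans (min_le_left _ _)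
  have hsg3 : sg κ J M ≤ 1 / 2 := hsg1.trans (min_le_right _ _)
  have hfin := hsv.final hW0 he0 hsg0 hsg3 (by positivity) N
  refine hfin.trans ?_
  have hNW : 0 ≤ (N : ℝ) * W := by positivity
  have g1 : 2 * sg κ J M * (N * W) ≤ δ * (N * W) := mul_le_mul_of_nonneg_right (by linarith) hNW
  have g2 : 3 * (N : ℝ) * e ≤ N * Real.exp (-(A * S)) := by
    have h1 : e = Real.exp (-(A * S)) * Real.exp (-S) := by
      rw [he, ← Real.exp_add]
      congr 1
      ring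
    have h2 : 3 * Real.exp (-S) ≤ 1 := by
      have h3 : Real.exp (-S) ≤ Real.exp (-2) := Real.exp_le_exp.2 (by linarith)
      have h4 : Real.exp (-2) * 3 ≤ 1 := by
        rw [Real.exp_neg, inv_mul_le_iff₀ (Real.exp_pos _)]
        have := Real.add_one_le_exp (2 : ℝ)
        linarith
      linarith
    rw [h1]
    have h5 : 0 ≤ (N : ℝ) * Real.exp (-(A * S)) := by positivity
    nlinarith
  have g3 : ((J : ℝ) + 2) * ((1 + κ * ((Ps b).card : ℝ)) ^ m0 * (z : ℝ) ^ (4 * M + 8))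
      ≤ (z : ℝ) ^ (4 * Bn + 4 * M + 11) := by
    have h1 : (J : ℝ) + 2 ≤ z := by
      have h2 : J < 2 ^ J := Nat.lt_two_pow_self
      have h3 : (J : ℝ) ≤ ((2 ^ J : ℕ) : ℝ) := by exact_mod_cast h2.le
      have h4 : Real.log z ≤ z - 1 := Real.log_le_sub_one_of_pos (by linarith)
      linarith
    have h5 : 1 + κ * ((Ps b).card : ℝ) ≤ (b : ℝ) ^ 2 := by
      have : κ * ((Ps b).card : ℝ) ≤ κ * b := mul_le_mul_of_nonneg_left (card_Ps_le b) hκ0.le
      nlinarith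
    have hb1' : (1 : ℝ) ≤ b := by linarith
    have h6 : (1 + κ * ((Ps b).card : ℝ)) ^ m0 ≤ (z : ℝ) ^ (4 * Bn + 2) := by
      calc (1 + κ * ((Ps b).card : ℝ)) ^ m0 ≤ ((b : ℝ) ^ 2) ^ m0 :=
            pow_le_pow_left₀ (by positivity) h5 m0
        _ = (b : ℝ) ^ (2 * m0) := by rw [← pow_mul]
        _ ≤ (b : ℝ) ^ (2 ^ J * (4 * Bn + 2)) := by
            apply pow_le_pow_right₀ hb1'
            rw [hm0]
            have : 1 ≤ 2 ^ J := Nat.one_le_two_pow
            nlinarith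
        _ = ((b : ℝ) ^ (2 ^ J)) ^ (4 * Bn + 2) := by rw [pow_mul]
        _ ≤ (z : ℝ) ^ (4 * Bn + 2) := by
            apply pow_le_pow_left₀ (by positivity)
            exact_mod_cast iterate_sqrt_pow_le J z
    calc ((J : ℝ) + 2) * ((1 + κ * ((Ps b).card : ℝ)) ^ m0 * (z : ℝ) ^ (4 * M + 8))
        ≤ (z : ℝ) * ((z : ℝ) ^ (4 * Bn + 2) * (z : ℝ) ^ (4 * M + 8)) := by
          apply mul_le_mul h1 (mul_le_mul_of_nonneg_right h6 (by positivity)) (by positivity)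
            (by linarith)
      _ = _ := by
          rw [← pow_add, ← pow_succ']
          congr 1
          ring
  linarith

/-- the fundamental lemma, error `exp (-s)` at level `z^(10 s)` -/
theorem fl {κ : ℝ} (hκ : 1 ≤ κ) {A : ℝ} (hA : 0 ≤ A) : ∃ s0 : ℕ, ∀ s : ℕ, s0 ≤ s →
    ∀ᶠ z : ℕ in atTop, ∀ w : ℕ → ℕ → ℝ, Adm w κ → ∀ N : ℕ,
      |∑ t ∈ range N, ∏ p ∈ Ps z, (1 - w p t) - N * ∏ p ∈ Ps z, (1 - nu w p / p)|
        ≤ Real.exp (-(s : ℝ)) * (N * ∏ p ∈ Ps z, (1 - nu w p / p))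
          + (N * Real.exp (-(A * Sz z)) + (z : ℝ) ^ (10 * s)) := by
  set B : ℕ := ⌈Real.exp 2 * κ + A + 1⌉₊ with hB
  set c0 : ℝ := Real.exp (2 * κ * 12) * Real.exp (κ * 12) with hc0
  have hc0pos : 0 < c0 := by positivity
  -- `(12 κ)^n / n! ≤ exp (-n) * stuff`
  obtain ⟨n0, hn0⟩ : ∃ n0 : ℕ, ∀ n : ℕ, n0 ≤ n →
      (Real.exp 1 * (κ * 12)) ^ n / (n.factorial : ℝ) ≤ 1 / (2 * c0) := by
    have h1 : Tendsto (fun n : ℕ => (Real.exp 1 * (κ * 12)) ^ n / (n.factorial : ℝ)) atTop (𝓝 0) :=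
      FloorSemiring.tendsto_pow_div_factorial_atTop _
    have h2 : (0 : ℝ) < 1 / (2 * c0) := by positivity
    obtain ⟨n0, h⟩ := (h1.eventually (gt_mem_nhds h2)).exists_forall_of_atTop
    exact ⟨n0, fun n hn => (h n hn).le⟩
  refine ⟨n0 + 4 * B + 30, fun s hs => ?_⟩
  -- an odd number between `s` and `s + 1`
  obtain ⟨M, hM1, hM2, hM3⟩ : ∃ M : ℕ, Odd M ∧ s ≤ M ∧ M ≤ s + 1 := by
    rcases Nat.even_or_odd s with h | h
    · exact ⟨s + 1, h.add_one, by omega, le_rfl⟩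
    · exact ⟨s, h, le_rfl, by omega⟩
  have hbound : c0 * ((κ * 12) ^ M / (M.factorial : ℝ)) ≤
      min (Real.exp (-(s : ℝ)) / 2) (1 / 2) := by
    have h1 := hn0 M (by omega)
    have h2 : (κ * 12) ^ M / (M.factorial : ℝ) =
        Real.exp (-(M : ℝ)) * ((Real.exp 1 * (κ * 12)) ^ M / (M.factorial : ℝ)) := by
      rw [mul_pow (Real.exp 1) (κ * 12) M, ← Real.exp_nat_mul, mul_one]
      have h3 : Real.exp (-(M : ℝ)) * Real.exp (M : ℝ) = 1 := by
        rw [← Real.exp_add, neg_add_cancel, Real.exp_zero]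
      calc (κ * 12) ^ M / (M.factorial : ℝ)
          = (Real.exp (-(M : ℝ)) * Real.exp (M : ℝ)) * ((κ * 12) ^ M / (M.factorial : ℝ)) := by
            rw [h3, one_mul]
        _ = _ := by ring
    have h4 : c0 * ((κ * 12) ^ M / (M.factorial : ℝ)) ≤ Real.exp (-(M : ℝ)) / 2 := by
      rw [h2]
      calc c0 * (Real.exp (-(M : ℝ)) * ((Real.exp 1 * (κ * 12)) ^ M / (M.factorial : ℝ)))
          ≤ c0 * (Real.exp (-(M : ℝ)) * (1 / (2 * c0))) := by gcongr
        _ = Real.exp (-(M : ℝ)) / 2 := by field_simp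
    have h5 : Real.exp (-(M : ℝ)) ≤ Real.exp (-(s : ℝ)) := by
      apply Real.exp_le_exp.2
      have : (s : ℝ) ≤ M := by exact_mod_cast hM2
      linarith
    have h6 : Real.exp (-(s : ℝ)) ≤ 1 := by
      rw [Real.exp_le_one_iff]
      have : (0 : ℝ) ≤ s := Nat.cast_nonneg _
      linarith
    refine le_min (h4.trans (by linarith)) (h4.trans (by linarith))
  filter_upwards [fundM hκ hA M hM1 hbound, eventually_ge_atTop 1] with z hz hz1
  intro w hw N
  refine (hz w hw N).trans ?_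
  have h7 : (z : ℝ) ^ (4 * B + 4 * M + 11) ≤ (z : ℝ) ^ (10 * s) := by
    apply pow_le_pow_right₀ (by exact_mod_cast hz1)
    omega
  linarith

end Pool.Agent.Helper88.PP
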