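import Mathlib

/-!
# A positive proportion of the prime gaps is larger than `λ` times the average: statements

Everything is about the integers `n ∈ (x/2, x]` in a fixed class `b` modulo `QQ x`, the product of
the primes up to `log x / 20`, and about the points `n + i`, `1 ≤ i ≤ y`, where `y` is between
`log x` and `(log x)^2`.  `z` is about `x^(1/E)`.
-/

set_option autoImplicit false

open Finset Filter Topology

open scoped Classical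

namespace Pool.Agent.Helper88.PP

/-- the primes in `(y, z]` -/
noncomputable def pr (y z : ℕ) : Finset ℕ := (Ioc y z).filter Nat.Prime

/-- `m` has no prime factor in `(y, z]` -/
def Rg (y z m : ℕ) : Prop := ∀ p ∈ pr y z, ¬ p ∣ m

/-- the density of the integers without prime factor in `(y, z]` -/
noncomputable def om (y z : ℕ) : ℝ := ∏ p ∈ pr y z, (1 - 1 / (p : ℝ))

/-- squarefree, all prime factors `> z` (`r = 1` is allowed) -/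
def Sf (z r : ℕ) : Prop := Squarefree r ∧ ∀ p, p.Prime → p ∣ r → z < p

/-- the squarefree `r < X` all of whose prime factors are `> z` -/
noncomputable def SS (z X : ℕ) : Finset ℕ := (Ico 1 X).filter (Sf z)

/-- `∏_{p ∣ r} (1 - p 1_{p ∣ m})` -/
noncomputable def uu (r m : ℕ) : ℝ := ∏ p ∈ r.primeFactors, (1 - if p ∣ m then (p : ℝ) else 0)

/-- the function with label `r` at the integer `m`; the label `0` means: no condition -/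
noncomputable def vv (y z r m : ℕ) : ℝ := if r = 0 then 1 else if Rg y z m then uu r m else 0

/-- the mean square of `vv` with label `r` in the ideal model, `o` the density of `Rg` -/
noncomputable def ww (o : ℝ) (r : ℕ) : ℝ := if r = 0 then 1 else o * (Nat.totient r : ℝ)

/-- the mean of `1_{Rg} 1_{d ∣ ·}` in the ideal model; the label `0` means: no condition -/
noncomputable def dd (o : ℝ) (d : ℕ) : ℝ := if d = 0 then 1 else o / d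

/-! ### the choice of the parameters -/

/-- the product of the primes up to `log x / 20` -/
noncomputable def QQ (x : ℕ) : ℕ := primorial ⌊Real.log x / 20⌋₊

/-- the integers in `(x/2, x]` in the class `b` modulo `QQ x` -/
noncomputable def NN (x b : ℕ) : Finset ℕ := (Ioc (x / 2) x).filter (fun n => n % QQ x = b)

/-- about the number of elements of `NN x b` -/
noncomputable def XX (x : ℕ) : ℝ := ((x - x / 2 : ℕ) : ℝ) / QQ x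

/-- `z` is `x^(1/E)` and `log x ≤ y ≤ (log x)^2` -/
def Sc (E z x y : ℕ) : Prop :=
  z ^ E ≤ x ∧ x < (z + 1) ^ E ∧ Real.log x ≤ y ∧ (y : ℝ) ≤ Real.log x ^ 2

/-- the total cost allowed -/
def MM (E : ℕ) : ℕ := E / 16

/-- the lower end of the range of the labels -/
def m1 (q E : ℕ) : ℕ := E / 16 / (2 * q)

/-- the upper end of the range of the labels -/
def m2 (q E : ℕ) : ℕ := q * m1 q E

/-- the cost of a label -/
def ee (z r : ℕ) : ℕ := Nat.log z r + 1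

/-- the labels: squarefree, prime factors `> z`, between `z^m` and `z^m'` -/
noncomputable def LA (z m m' : ℕ) : Finset ℕ := (SS z (z ^ m')).filter (fun r => z ^ m ≤ r)

/-- the normalisation -/
noncomputable def VV (z m m' : ℕ) : ℝ :=
  ∑ r ∈ LA z m m', 1 / ((Nat.totient r : ℝ) * ee z r)

/-- `V ≥ L` for all labels between `z^m` and `z^(q m)` -/
def GoodR (L : ℝ) (q : ℕ) : Prop := 1 ≤ q ∧ ∀ m z : ℕ, 1 ≤ m → 2 ≤ z → L ≤ VV z m (q * m)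

/-- the coefficient of the label `r` -/
noncomputable def aa (q E z r : ℕ) : ℝ :=
  1 / (VV z (m1 q E) (m2 q E) * (Nat.totient r : ℝ) * ee z r)

/-- the label functions on the set of points `P`, of total cost at most `MM E` -/
noncomputable def TT (q E z : ℕ) (P : Finset ℕ) : Finset (P → ℕ) :=
  (Fintype.piFinset (fun _ : P => insert 0 (LA z (m1 q E) (m2 q E)))).filter
    (fun r => ∑ i, (if r i = 0 then 0 else ee z (r i)) ≤ MM E)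

/-- the weight: the part of small cost of `∏_{i ∈ P} (1 - S(n + i))` -/
noncomputable def WW (q E z y : ℕ) (P : Finset ℕ) (n : ℕ) : ℝ :=
  ∑ r ∈ TT q E z P, ∏ i : P,
    ((if r i = 0 then 1 else - aa q E z (r i)) * vv y z (r i) (n + (i : ℕ)))

/-- the mean square of the weight in the ideal model -/
noncomputable def DD (q E z y : ℕ) (P : Finset ℕ) : ℝ :=
  ∑ r ∈ TT q E z P, ∏ i : P,
    ((if r i = 0 then 1 else (aa q E z (r i)) ^ 2) * ww (om y z) (r i))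

/-- the total cost of a label function -/
noncomputable def cost {P : Finset ℕ} (z : ℕ) (r : P → ℕ) : ℕ :=
  ∑ i, (if r i = 0 then 0 else ee z (r i))

/-- what is left over at a prime -/
noncomputable def De (q E z t : ℕ) : ℝ :=
  ∑ s ∈ (LA z (m1 q E) (m2 q E)).filter (fun s => MM E < t + ee z s), aa q E z s

/-- the normalisation of the majorant of the primes -/
noncomputable def V1 (E z : ℕ) : ℝ := ∑ s ∈ SS z (z ^ MM E), 1 / (Nat.totient s : ℝ)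

/-- the weight at a prime, times the majorant of the primes -/
noncomputable def GG (q E z y : ℕ) (P : Finset ℕ) (h : P) (n : ℕ) : ℝ :=
  ∑ r ∈ (TT q E z P).filter (fun r => r h = 0), ∑ s ∈ SS z (z ^ MM E),
    De q E z (cost z r) * (1 / (V1 E z * (Nat.totient s : ℝ))) * vv y z s (n + (h : ℕ)) *
      ∏ i : P, ((if r i = 0 then 1 else - aa q E z (r i)) * vv y z (r i) (n + (i : ℕ)))

/-! ### sieve -/

/-- counting in the class `b`, with roughness and divisibility conditions at few points -/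
def StmtTL : Prop := ∃ c : ℝ, 0 < c ∧ ∀ K : ℕ, ∃ E0 : ℕ, ∀ E : ℕ, E0 ≤ E → ∃ z0 : ℕ, ∀ z : ℕ,
  z0 ≤ z → ∀ x y : ℕ, Sc E z x y → ∀ b : ℕ, b < QQ x → ∀ B : Finset ℕ, B ⊆ Icc 1 y →
  B.card ≤ K → ∀ d : ℕ → ℕ, (∀ i ∈ B, Sf z (d i)) → ∏ i ∈ B, d i ≤ z ^ (E / 4) →
  ((∀ i ∈ B, ∀ j ∈ B, i ≠ j → Nat.Coprime (d i) (d j)) →
    |(((NN x b).filter (fun n => ∀ i ∈ B, d i ∣ n + i ∧ Rg y z (n + i))).card : ℝ)
      - XX x * ∏ i ∈ B, (om y z / d i)| ≤ Real.exp (-(c * E)) * (XX x * ∏ i ∈ B, (om y z / d i)))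
  ∧ (¬ (∀ i ∈ B, ∀ j ∈ B, i ≠ j → Nat.Coprime (d i) (d j)) →
    ((NN x b).filter (fun n => ∀ i ∈ B, d i ∣ n + i ∧ Rg y z (n + i))).card = 0)

/-- the divisor labels of a label -/
def DL (r : ℕ) : Finset ℕ := if r = 0 then {0} else r.divisors

/-- the coefficient of a divisor label -/
noncomputable def kap (d : ℕ) : ℝ :=
  if d = 0 then 1 else (ArithmeticFunction.moebius d : ℝ) * d

/-- the product of two divisor labels -/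
def LL (d e : ℕ) : ℕ := if d = 0 then e else if e = 0 then d else Nat.lcm d e

/-- `0` if the nonzero values of `d` are pairwise coprime, `1` if not -/
noncomputable def nc {ι : Type} (d : ι → ℕ) : ℝ :=
  if ∀ i j, i ≠ j → d i ≠ 0 → d j ≠ 0 → Nat.Coprime (d i) (d j) then 0 else 1

/-- the error term of the second moment -/
def StmtTRE : Prop := ∀ (ι : Type) [Fintype ι] [DecidableEq ι] (z X K : ℕ)
  (o δ C : ℝ) (T : Finset (ι → ℕ)) (al : ι → ℕ → ℝ) (BB : Finset (Finset ι)),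
  2 ≤ z → 0 ≤ o → 0 ≤ δ → 1 ≤ C →
  (∀ r ∈ T, ∀ i, r i = 0 ∨ r i ∈ SS z X) →
  (∀ r ∈ T, ∀ s ∈ T, (univ.filter (fun i => r i ≠ 0 ∨ s i ≠ 0)) ∈ BB) →
  (∀ B ∈ BB, B.card ≤ K) →
  (∀ i r, 0 ≤ al i r) → (∀ i, al i 0 ≤ 1) →
  (∀ i, ∀ d ∈ SS z X, (d : ℝ) * ∑ r ∈ (SS z X).filter (fun r => d ∣ r), al i r ≤ C) →
  ∑ r ∈ T, ∑ s ∈ T, (∏ i, (al i (r i) * al i (s i))) *
    ∑ d ∈ Fintype.piFinset (fun i => DL (r i)), ∑ e ∈ Fintype.piFinset (fun i => DL (s i)),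
      (∏ i, (|kap (d i)| * |kap (e i)| * dd o (LL (d i) (e i)))) *
        (δ + nc (fun i => LL (d i) (e i)))
    ≤ (δ + 9 * K ^ 2 / z) *
      ∑ B ∈ BB, (o * (3 * C ^ 2 * ∑ e ∈ SS z (X ^ 2), (3 : ℝ) ^ e.primeFactors.card / e)) ^ B.card

/-- the second moment of a function given by labels -/
def StmtTR : Prop := ∀ (ι : Type) [Fintype ι] [DecidableEq ι] (pt : ι → ℕ) (y z X D K : ℕ)
  (N : Finset ℕ) (Y o δ C : ℝ) (T : Finset (ι → ℕ)) (c : (ι → ℕ) → ℝ) (al : ι → ℕ → ℝ)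
  (BB : Finset (Finset ι)),
  2 ≤ z → 0 ≤ Y → 0 ≤ o → 0 ≤ δ → 1 ≤ C →
  (∀ r ∈ T, ∀ i, r i = 0 ∨ r i ∈ SS z X) →
  (∀ r ∈ T, ∀ s ∈ T, ∀ i, r i = 1 → s i ≠ 0) →
  (∀ r ∈ T, (∏ i, max 1 (r i)) ^ 2 ≤ D) →
  (∀ r ∈ T, ∀ s ∈ T, (univ.filter (fun i => r i ≠ 0 ∨ s i ≠ 0)) ∈ BB) →
  (∀ B ∈ BB, B.card ≤ K) →
  (∀ i r, 0 ≤ al i r) → (∀ i, al i 0 ≤ 1) → (∀ r ∈ T, |c r| ≤ ∏ i, al i (r i)) →
  (∀ i, ∀ d ∈ SS z X, (d : ℝ) * ∑ r ∈ (SS z X).filter (fun r => d ∣ r), al i r ≤ C) →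
  (∀ d : ι → ℕ, (∀ i, d i = 0 ∨ Sf z (d i)) → ∏ i, max 1 (d i) ≤ D →
    (univ.filter (fun i => d i ≠ 0)) ∈ BB →
    ((∀ i j, i ≠ j → d i ≠ 0 → d j ≠ 0 → Nat.Coprime (d i) (d j)) →
      |((N.filter (fun n => ∀ i, d i ≠ 0 → d i ∣ n + pt i ∧ Rg y z (n + pt i))).card : ℝ)
        - Y * ∏ i, dd o (d i)| ≤ δ * (Y * ∏ i, dd o (d i)))
    ∧ (¬ (∀ i j, i ≠ j → d i ≠ 0 → d j ≠ 0 → Nat.Coprime (d i) (d j)) →
      (N.filter (fun n => ∀ i, d i ≠ 0 → d i ∣ n + pt i ∧ Rg y z (n + pt i))).card = 0)) →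
  |∑ n ∈ N, (∑ r ∈ T, c r * ∏ i, vv y z (r i) (n + pt i)) ^ 2
      - Y * ∑ r ∈ T, c r ^ 2 * ∏ i, ww o (r i)|
    ≤ Y * (δ + 9 * K ^ 2 / z) *
      ∑ B ∈ BB, (o * (3 * C ^ 2 * ∑ e ∈ SS z (X ^ 2), (3 : ℝ) ^ e.primeFactors.card / e)) ^ B.card

/-! ### sums over rough numbers -/

/-- bounds for the masses -/
def StmtMA : Prop := ∃ c C : ℝ, 0 < c ∧ 1 ≤ C ∧ ∀ z m : ℕ, 2 ≤ z → 1 ≤ m →
  c * m ≤ ∑ s ∈ SS z (z ^ m), 1 / (Nat.totient s : ℝ) ∧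
  ∑ s ∈ SS z (z ^ m), 1 / (Nat.totient s : ℝ) ≤ C * m ∧
  ∑ s ∈ SS z (z ^ m), (3 : ℝ) ^ s.primeFactors.card / s ≤ (C * m) ^ 3

/-- the normalisation can be made large -/
def StmtRH : Prop := ∀ L : ℝ, ∃ q : ℕ, GoodR L q

/-- the bound for the divisor coefficients -/
def StmtCO : Prop := ∀ q : ℕ, GoodR 1 q → ∃ C : ℝ, 1 ≤ C ∧ ∃ E0 : ℕ, ∀ E : ℕ, E0 ≤ E →
  ∃ z0 : ℕ, ∀ z : ℕ, z0 ≤ z → ∀ d ∈ SS z (z ^ MM E),
    ((d : ℝ) * ∑ r ∈ (LA z (m1 q E) (m2 q E)).filter (fun r => d ∣ r), aa q E z r ≤ C) ∧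
    ((d : ℝ) * ∑ r ∈ (SS z (z ^ MM E)).filter (fun r => d ∣ r), 1 / (Nat.totient r : ℝ)
      ≤ C * ∑ r ∈ SS z (z ^ MM E), 1 / (Nat.totient r : ℝ))

/-- the second moment of a function given by labels, for our parameters; `F` is a set of at most
one point where all labels are nonzero -/
def StmtTS : Prop := ∀ q : ℕ, GoodR 1 q → ∀ (A ε : ℝ) (K : ℕ), 0 < A → 0 < ε → ∃ E0 : ℕ,
  ∀ E : ℕ, E0 ≤ E → ∃ z0 : ℕ, ∀ z : ℕ, z0 ≤ z → ∀ x y : ℕ, Sc E z x y → ∀ b : ℕ, b < QQ x →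
  ∀ P : Finset ℕ, P ⊆ Icc 1 y → (P.card : ℝ) * om y z ≤ A * E →
  ∀ (T : Finset (P → ℕ)) (c : (P → ℕ) → ℝ) (F : Finset P), F.card ≤ 1 →
  (∀ r ∈ T, ∀ i, i ∉ F → (r i = 0 ∨ r i ∈ LA z (m1 q E) (m2 q E))) →
  (∀ r ∈ T, ∀ i ∈ F, r i ∈ SS z (z ^ MM E)) →
  (∀ r ∈ T, (univ.filter (fun i => r i ≠ 0)).card ≤ K) →
  (∀ r ∈ T, ∏ i, max 1 (r i) ≤ z ^ (2 * MM E)) →
  (∀ r ∈ T, |c r| ≤ ∏ i, (if i ∈ F then 1 / (V1 E z * (Nat.totient (r i) : ℝ)) else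
    if r i = 0 then 1 else aa q E z (r i))) →
  |∑ n ∈ NN x b, (∑ r ∈ T, c r * ∏ i, vv y z (r i) (n + (i : ℕ))) ^ 2
      - XX x * ∑ r ∈ T, c r ^ 2 * ∏ i, ww (om y z) (r i)|
    ≤ ε / E * om y z ^ F.card * XX x

/-! ### the ideal model -/

/-- the part of large cost -/
def StmtRA : Prop := ∀ (ι : Type) [Fintype ι] [DecidableEq ι] (S : Finset ℕ) (e : ℕ → ℕ)
  (w : ℕ → ℝ) (M m : ℕ), 0 ∉ S → (∀ r ∈ S, e r ≤ m) → (∀ r, 0 ≤ w r) → m ≤ M →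
  ((M : ℝ) - m) * ∑ r ∈ (Fintype.piFinset (fun _ : ι => insert 0 S)).filter
      (fun r => ∑ i, (if r i = 0 then 0 else e (r i)) ≤ M ∧
        M < ∑ i, (if r i = 0 then 0 else e (r i)) + m), ∏ i, (if r i = 0 then 1 else w (r i))
    ≤ (Fintype.card ι : ℝ) * (∑ r ∈ S, (e r : ℝ) * w r) *
      ∑ r ∈ (Fintype.piFinset (fun _ : ι => insert 0 S)).filter
        (fun r => ∑ i, (if r i = 0 then 0 else e (r i)) ≤ M), ∏ i, (if r i = 0 then 1 else w (r i))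

/-! ### the moments of the weight -/

/-- the mean square -/
def StmtS1 : Prop := ∀ q : ℕ, GoodR 1 q → ∀ A ε : ℝ, 0 < A → 0 < ε → ∃ E0 : ℕ, ∀ E : ℕ, E0 ≤ E →
  ∃ z0 : ℕ, ∀ z : ℕ, z0 ≤ z → ∀ x y : ℕ, Sc E z x y → ∀ b : ℕ, b < QQ x →
  ∀ P : Finset ℕ, P ⊆ Icc 1 y → (P.card : ℝ) * om y z ≤ A * E →
    1 ≤ DD q E z y P ∧
    |∑ n ∈ NN x b, WW q E z y P n ^ 2 - XX x * DD q E z y P| ≤ ε * XX x

/-- the mean square of the product over two disjoint sets -/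
def StmtS3 : Prop := ∀ q : ℕ, GoodR 1 q → ∀ A ε : ℝ, 0 < A → 0 < ε → ∃ E0 : ℕ, ∀ E : ℕ, E0 ≤ E →
  ∃ z0 : ℕ, ∀ z : ℕ, z0 ≤ z → ∀ x y : ℕ, Sc E z x y → ∀ b : ℕ, b < QQ x →
  ∀ P P' : Finset ℕ, P ⊆ Icc 1 y → P' ⊆ Icc 1 y → Disjoint P P' →
    (P.card : ℝ) * om y z ≤ A * E → (P'.card : ℝ) * om y z ≤ A * E →
    |∑ n ∈ NN x b, (WW q E z y P n * WW q E z y P' n) ^ 2
      - XX x * (DD q E z y P * DD q E z y P')| ≤ ε * XX x

/-- at a prime the weight is `GG` -/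
def StmtPW : Prop := ∀ (q E z y : ℕ) (P : Finset ℕ) (h : P) (n : ℕ), 2 ≤ MM E → 1 ≤ m1 q E →
  2 ≤ z → VV z (m1 q E) (m2 q E) ≠ 0 → m2 q E ≤ MM E → (n + (h : ℕ)).Prime → z ^ MM E ≤ n →
  WW q E z y P n = GG q E z y P h n

/-- the mean square of `GG` -/
def StmtGT : Prop := ∀ q : ℕ, GoodR 1 q → ∀ A ε : ℝ, 0 < A → 0 < ε → ∃ E0 : ℕ, ∀ E : ℕ, E0 ≤ E →
  ∃ z0 : ℕ, ∀ z : ℕ, z0 ≤ z → ∀ x y : ℕ, Sc E z x y → ∀ b : ℕ, b < QQ x →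
  ∀ P : Finset ℕ, P ⊆ Icc 1 y → (P.card : ℝ) * om y z ≤ A * E → ∀ h : P,
    ∑ n ∈ NN x b, GG q E z y P h n ^ 2 ≤ XX x * om y z *
      (1 / V1 E z * ∑ r ∈ (TT q E z P).filter (fun r => MM E < cost z r + m2 q E), ∏ i : P,
        ((if r i = 0 then 1 else (aa q E z (r i)) ^ 2) * ww (om y z) (r i)) + ε / E)

/-- the mean square against the number of primes -/
def StmtS2 : Prop := ∀ A ε : ℝ, 0 < A → 0 < ε → ∃ L : ℝ, 1 ≤ L ∧ ∀ q : ℕ, GoodR L q → ∃ E0 : ℕ,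
  ∀ E : ℕ, E0 ≤ E → ∃ z0 : ℕ, ∀ z : ℕ, z0 ≤ z → ∀ x y : ℕ, Sc E z x y → ∀ b : ℕ, b < QQ x →
  ∀ P : Finset ℕ, P ⊆ Icc 1 y → (P.card : ℝ) * om y z ≤ A * E →
    ∑ n ∈ NN x b, WW q E z y P n ^ 2 * ((P.filter (fun h => (n + h).Prime)).card : ℝ)
      ≤ ε * (XX x * DD q E z y P)

/-- the fourth moment -/
def StmtS4 : Prop := ∀ q : ℕ, GoodR 1 q → ∀ A : ℝ, 0 < A → ∃ E0 : ℕ, ∀ E : ℕ, E0 ≤ E →
  ∃ (C : ℝ) (z0 : ℕ), ∀ z : ℕ, z0 ≤ z → ∀ x y : ℕ, Sc E z x y → ∀ b : ℕ, b < QQ x →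
  ∀ P : Finset ℕ, P ⊆ Icc 1 y → (P.card : ℝ) * om y z ≤ A * E →
    ∑ n ∈ NN x b, WW q E z y P n ^ 4 ≤ C * XX x

/-! ### the classes `b` -/

/-- the mean number of the points which are coprime to `Q` -/
def StmtHB : Prop := ∀ Q u v : ℕ, 1 ≤ Q → u ≤ v →
  ∑ b ∈ range Q, ((Ioc u v).filter (fun h => Nat.Coprime (b + h) Q)).card
    = (v - u) * Nat.totient Q

/-- its size -/
def StmtMU : Prop := ∃ C : ℝ, 0 < C ∧ ∀ lam : ℝ, 1 ≤ lam → ∀ T E : ℕ, 1 ≤ T → 1 ≤ E →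
  ∃ z0 : ℕ, ∀ z : ℕ, z0 ≤ z → ∀ x : ℕ, z ^ E ≤ x → x < (z + 1) ^ E →
  (⌈lam * Real.log x⌉₊ : ℝ) * ((Nat.totient (QQ x) : ℝ) / QQ x) *
    om (T * ⌈lam * Real.log x⌉₊) z ≤ C * lam * E

/-! ### the conclusion -/

/-- second moment method -/
def StmtCH : Prop := ∀ (N J : Finset ℕ) (f g : ℕ → ℕ → ℝ) (X C ε : ℝ), J.Nonempty → 0 ≤ X →
  0 ≤ ε → 0 ≤ C →
  (∀ j ∈ J, ∀ n ∈ N, 0 ≤ f j n) → (∀ j ∈ J, ∀ n ∈ N, 0 ≤ g j n) →
  (N.card : ℝ) ≤ (1 + ε) * X → (∀ j ∈ J, (1 - ε) * X ≤ ∑ n ∈ N, f j n) →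
  (∀ j ∈ J, ∑ n ∈ N, g j n ≤ ε * X) → (∀ j ∈ J, ∑ n ∈ N, f j n ^ 2 ≤ C * X) →
  (∀ j ∈ J, ∀ k ∈ J, j ≠ k → ∑ n ∈ N, f j n * f k n ≤ (1 + ε) * X) →
  ((N.filter (fun n => ∀ j ∈ J, f j n ≤ g j n)).card : ℝ) ≤ (18 * ε + 4 * C / J.card) * X

/-- almost all blocks of length `T λ log x` contain a prime-free interval of length `λ log x` -/
def StmtMO : Prop := ∀ lam : ℝ, 1 ≤ lam → ∀ η : ℝ, 0 < η → ∃ T : ℕ, ∀ᶠ x : ℕ in atTop,
  (((Ioc (x / 2) x).filter (fun n => ∀ t, t ≤ T * ⌈lam * Real.log x⌉₊ →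
    ∃ p, p.Prime ∧ n + t < p ∧ p ≤ n + t + ⌈lam * Real.log x⌉₊)).card : ℝ) ≤ η * x

/-- the main theorem -/
def StmtPP : Prop := ∀ lam : ℝ, ∃ c : ℝ, 0 < c ∧ ∃ X : ℝ, ∀ x : ℝ, X ≤ x →
  c * (x / Real.log x) ≤ ({n : ℕ | (Nat.nth Nat.Prime n : ℝ) ≤ x ∧
    lam * Real.log x ≤ (Nat.nth Nat.Prime (n + 1) : ℝ) - Nat.nth Nat.Prime n - 1}.ncard : ℝ)

end Pool.Agent.Helper88.PP
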