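import Pool.Agent.Helper88.PP.Goals

/-! # Assembly of the statement on blocks: preliminaries -/

set_option autoImplicit false

open Finset Filter Topology

open scoped Classical

namespace Pool.Agent.Helper88.PP

/-- the root of `x` -/
theorem root_exists (E z0 x : ℕ) (hE : 1 ≤ E) (hx : z0 ^ E ≤ x) :
    ∃ z, z0 ≤ z ∧ z ^ E ≤ x ∧ x < (z + 1) ^ E := by
  have hex : ∃ z, x < (z + 1) ^ E := ⟨x, by
    calc x < x + 1 := Nat.lt_succ_self x
      _ = (x + 1) ^ 1 := (pow_one _).symm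
      _ ≤ (x + 1) ^ E := Nat.pow_le_pow_right (by omega) hE⟩
  refine ⟨Nat.find hex, ?_, ?_, Nat.find_spec hex⟩
  · by_contra hcon
    push Not at hcon
    have h1 := Nat.find_spec hex
    have h2 : (Nat.find hex + 1) ^ E ≤ z0 ^ E := Nat.pow_le_pow_left (by omega) E
    omega
  · rcases Nat.eq_zero_or_pos (Nat.find hex) with h | h
    · rw [h, zero_pow (by omega)]
      exact Nat.zero_le _
    · have h1 := Nat.find_min hex (m := Nat.find hex - 1) (by omega)
      push Not at h1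
      rwa [Nat.sub_add_cancel h] at h1

theorem GoodR.mono {L L' : ℝ} {q : ℕ} (h : GoodR L q) (hL : L' ≤ L) : GoodR L' q :=
  ⟨h.1, fun m z hm hz => hL.trans (h.2 m z hm hz)⟩

theorem QQ_pos (x : ℕ) : 0 < QQ x := primorial_pos _

theorem XX_nonneg (x : ℕ) : 0 ≤ XX x := div_nonneg (Nat.cast_nonneg _) (Nat.cast_nonneg _)

theorem QQ_mul_XX (x : ℕ) : (QQ x : ℝ) * XX x = ((x - x / 2 : ℕ) : ℝ) := by
  have : (QQ x : ℝ) ≠ 0 := by exact_mod_cast (QQ_pos x).ne'
  unfold XX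
  field_simp

theorem om_nonneg (y z : ℕ) : 0 ≤ om y z := by
  apply Finset.prod_nonneg
  intro p hp
  have h1 : 2 ≤ p := (mem_filter.1 hp).2.two_le
  have h2 : (2 : ℝ) ≤ p := by exact_mod_cast h1
  have h3 : 1 / (p : ℝ) ≤ 1 := by
    rw [div_le_one (by linarith)]
    linarith
  linarith

/-- a prime `> log x / 20` does not divide `QQ x` -/
theorem coprime_QQ {x p : ℕ} (hp : p.Prime) (h : ⌊Real.log x / 20⌋₊ < p) :
    Nat.Coprime p (QQ x) := by
  rw [hp.coprime_iff_not_dvd]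
  intro hd
  unfold QQ primorial at hd
  rw [Prime.dvd_finset_prod_iff hp.prime] at hd
  obtain ⟨q, hq, hpq⟩ := hd
  rw [mem_filter, mem_range] at hq
  have := Nat.le_of_dvd hq.2.pos hpq
  omega

/-- one class: the second moment method applied -/
theorem class_bound (hCH : StmtCH) {q E z y x b T H : ℕ} {C ε : ℝ}
    (hε0 : 0 ≤ ε) (hC : 0 ≤ C)
    (J : Finset ℕ) (hJ : J.Nonempty) (Pw : ℕ → Finset ℕ)
    (hN : ((NN x b).card : ℝ) ≤ (1 + ε) * XX x)
    (hD : ∀ j ∈ J, 1 ≤ DD q E z y (Pw j))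
    (h1 : ∀ j ∈ J, |∑ n ∈ NN x b, WW q E z y (Pw j) n ^ 2 - XX x * DD q E z y (Pw j)| ≤ ε * XX x)
    (h2 : ∀ j ∈ J, ∑ n ∈ NN x b, WW q E z y (Pw j) n ^ 2 *
      (((Pw j).filter (fun h => (n + h).Prime)).card : ℝ) ≤ ε * (XX x * DD q E z y (Pw j)))
    (h3 : ∀ j ∈ J, ∀ k ∈ J, j ≠ k → |∑ n ∈ NN x b, (WW q E z y (Pw j) n * WW q E z y (Pw k) n) ^ 2
      - XX x * (DD q E z y (Pw j) * DD q E z y (Pw k))| ≤ ε * XX x)
    (h4 : ∀ j ∈ J, ∑ n ∈ NN x b, WW q E z y (Pw j) n ^ 4 ≤ C * XX x)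
    (S : Finset ℕ) (hS : S ⊆ NN x b)
    (hSp : ∀ n ∈ S, ∀ j ∈ J, ∃ h ∈ Pw j, (n + h).Prime) :
    (S.card : ℝ) ≤ (18 * ε + 4 * C / J.card) * XX x := by
  have hX := XX_nonneg x
  set D : ℕ → ℝ := fun j => DD q E z y (Pw j) with hDdef
  set f : ℕ → ℕ → ℝ := fun j n => WW q E z y (Pw j) n ^ 2 / D j with hf
  set g : ℕ → ℕ → ℝ := fun j n => WW q E z y (Pw j) n ^ 2 *
      (((Pw j).filter (fun h => (n + h).Prime)).card : ℝ) / D j with hg
  have hDpos : ∀ j ∈ J, 0 < D j := fun j hj => lt_of_lt_of_le one_pos (hD j hj)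
  have key := hCH (NN x b) J f g (XX x) C ε hJ hX hε0 hC ?_ ?_ hN ?_ ?_ ?_ ?_
  · refine le_trans ?_ key
    have hsub : S ⊆ (NN x b).filter (fun n => ∀ j ∈ J, f j n ≤ g j n) := by
      intro n hn
      rw [mem_filter]
      refine ⟨hS hn, fun j hj => ?_⟩
      obtain ⟨h, hh1, hh2⟩ := hSp n hn j hj
      have hc : 1 ≤ ((Pw j).filter (fun h => (n + h).Prime)).card :=
        Finset.card_pos.2 ⟨h, mem_filter.2 ⟨hh1, hh2⟩⟩
      have hc' : (1 : ℝ) ≤ (((Pw j).filter (fun h => (n + h).Prime)).card : ℝ) := by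
        exact_mod_cast hc
      apply div_le_div_of_nonneg_right _ (hDpos j hj).le
      nlinarith [sq_nonneg (WW q E z y (Pw j) n)]
    exact_mod_cast Finset.card_le_card hsub
  · intro j hj n _
    exact div_nonneg (sq_nonneg _) (hDpos j hj).le
  · intro j hj n _
    exact div_nonneg (mul_nonneg (sq_nonneg _) (Nat.cast_nonneg _)) (hDpos j hj).le
  · intro j hj
    have h5 := (abs_le.1 (h1 j hj)).1
    have h6 : 1 ≤ D j := hD j hj
    have h7 : ∑ n ∈ NN x b, f j n = (∑ n ∈ NN x b, WW q E z y (Pw j) n ^ 2) / D j := by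
      rw [Finset.sum_div]
    rw [h7, le_div_iff₀ (hDpos j hj)]
    have h8 : ε * XX x ≤ ε * XX x * D j := le_mul_of_one_le_right (by positivity) h6
    have h9 : DD q E z y (Pw j) = D j := rfl
    rw [h9] at h5
    linarith
  · intro j hj
    have h7 : ∑ n ∈ NN x b, g j n = (∑ n ∈ NN x b, WW q E z y (Pw j) n ^ 2 *
      (((Pw j).filter (fun h => (n + h).Prime)).card : ℝ)) / D j := by
      rw [Finset.sum_div]
    rw [h7, div_le_iff₀ (hDpos j hj)]
    have := h2 j hj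
    have h9 : DD q E z y (Pw j) = D j := rfl
    rw [h9] at this
    linarith
  · intro j hj
    have h6 : 1 ≤ D j := hD j hj
    have h7 : ∑ n ∈ NN x b, f j n ^ 2 = (∑ n ∈ NN x b, WW q E z y (Pw j) n ^ 4) / D j ^ 2 := by
      rw [Finset.sum_div]
      apply Finset.sum_congr rfl
      intro n _
      rw [hf]
      simp only
      rw [div_pow]
      ring
    rw [h7]
    have h10 : 0 ≤ ∑ n ∈ NN x b, WW q E z y (Pw j) n ^ 4 :=
      Finset.sum_nonneg (fun n _ => by positivity)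
    have h11 : (1 : ℝ) ≤ D j ^ 2 := one_le_pow₀ h6
    exact (div_le_self h10 h11).trans (h4 j hj)
  · intro j hj k hk hjk
    have h6 : 1 ≤ D j := hD j hj
    have h6' : 1 ≤ D k := hD k hk
    have h7 : ∑ n ∈ NN x b, f j n * f k n =
        (∑ n ∈ NN x b, (WW q E z y (Pw j) n * WW q E z y (Pw k) n) ^ 2) / (D j * D k) := by
      rw [Finset.sum_div]
      apply Finset.sum_congr rfl
      intro n _
      rw [hf]
      simp only
      rw [div_mul_div_comm, mul_pow]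
    have h8 := (abs_le.1 (h3 j hj k hk hjk)).2
    have h9 : 1 ≤ D j * D k := by nlinarith
    rw [h7, div_le_iff₀ (by linarith)]
    have h10 : ε * XX x ≤ ε * XX x * (D j * D k) := le_mul_of_one_le_right (by positivity) h9
    have h11 : DD q E z y (Pw j) * DD q E z y (Pw k) = D j * D k := rfl
    rw [h11] at h8
    linarith

end Pool.Agent.Helper88.PP
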