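import Pool.Agent.Helper88.PP.Goals
import Pool.Agent.Helper88.LG.FinA

/-! # From prime-free intervals in almost all blocks to a positive proportion of the gaps -/

set_option autoImplicit false

open Finset Filter Topology

open scoped Classical

namespace Pool.Agent.Helper88.PP

open Pool.Agent.Helper88.LG (idx StmtUU gap_of_idx ncard_ge)

/-- a prime `q ≤ n` is at most the last prime `≤ n` -/
theorem le_nth_idx {n q : ℕ} (hq : q.Prime) (h : q ≤ n) : q ≤ Nat.nth Nat.Prime (idx n) := by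
  have h1 : Nat.nth Nat.Prime (Nat.count Nat.Prime q) = q := Nat.nth_count hq
  have h2 : Nat.count Nat.Prime q < Nat.count Nat.Prime (n + 1) :=
    Nat.count_strict_mono hq (by omega)
  have h3 : Nat.count Nat.Prime (n + 1) = Nat.primeCounting n := rfl
  rw [← h1]
  apply Nat.nth_monotone Nat.infinite_setOf_prime
  unfold idx
  omega

theorem count_step (x0 T H L : ℕ) (G : Finset ℕ) (t : ℕ → ℕ)
    (hG : ∀ m ∈ G, 2 ≤ m ∧ (∃ q, q.Prime ∧ q ≤ m ∧ m < q + L) ∧ t m ≤ T * H) :
    G.card ≤ ((G.image (fun m => m + t m)).image idx).card * (T * H + L) := by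
  rw [Finset.image_image, mul_comm]
  apply Finset.card_le_mul_card_image
  intro j _
  have hsub : (G.filter (fun m => (idx ∘ fun m => m + t m) m = j)) ⊆
      Finset.Ico (Nat.nth Nat.Prime j - T * H) (Nat.nth Nat.Prime j + L) := by
    intro m hm
    rw [mem_filter] at hm
    obtain ⟨hm1, hm2⟩ := hm
    obtain ⟨h2, ⟨q, hq, hq1, hq2⟩, ht⟩ := hG m hm1
    have hm2' : idx (m + t m) = j := hm2
    have h3 : q ≤ Nat.nth Nat.Prime j := by
      rw [← hm2']
      exact le_nth_idx hq (by omega)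
    have h4 : Nat.nth Nat.Prime j ≤ m + t m := by
      rw [← hm2']
      exact (gap_of_idx (H := 0) (by omega) (by intro h h1 h2; omega)).1
    rw [mem_Ico]
    omega
  refine (Finset.card_le_card hsub).trans ?_
  rw [Nat.card_Ico]
  omega

theorem pp (hMO : StmtMO) (hUU : StmtUU) : StmtPP := by
  intro lam
  set l : ℝ := max lam 0 + 1 with hl
  have hl0 : (0 : ℝ) ≤ max lam 0 := le_max_right _ _
  have hl1 : 1 ≤ l := by linarith
  obtain ⟨c0, hc0, hU⟩ := hUU
  obtain ⟨T, hT⟩ := hMO l hl1 (c0 / 4) (by positivity)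
  have hK : 0 < 2 * l * T + 2 := by positivity
  refine ⟨c0 / (4 * (2 * l * T + 2)), by positivity, ?_⟩
  have hlog : Tendsto (fun x : ℕ => Real.log (x : ℝ)) atTop atTop :=
    Real.tendsto_log_atTop.comp tendsto_natCast_atTop_atTop
  have hsmall : ∀ᶠ x : ℕ in atTop, (2 * l * T) * Real.log x + 1 ≤ c0 / 4 * x := by
    have h1 : ∀ᶠ x : ℝ in atTop, ‖Real.log x‖ ≤ c0 / (8 * (2 * l * T + 1)) * ‖id x‖ :=
      (Asymptotics.isLittleO_iff.1 Real.isLittleO_log_id_atTop) (by positivity)
    have h2 : ∀ᶠ x : ℕ in atTop, 1 ≤ c0 / 8 * (x : ℝ) :=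
      (tendsto_natCast_atTop_atTop.const_mul_atTop (by positivity : (0 : ℝ) < c0 / 8)
        ).eventually_ge_atTop 1
    filter_upwards [tendsto_natCast_atTop_atTop.eventually h1, h2, eventually_ge_atTop 1] with
      x h1 h2 h3
    have hx0 : (0 : ℝ) ≤ x := Nat.cast_nonneg _
    have h4 : Real.log x ≤ c0 / (8 * (2 * l * T + 1)) * x := by
      have h5 : ‖id (x : ℝ)‖ = x := by
        simp only [id]
        rw [Real.norm_eq_abs, abs_of_nonneg hx0]
      rw [h5] at h1
      exact (Real.le_norm_self _).trans h1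
    have h6 : (2 * l * T) * Real.log x ≤ c0 / 8 * x := by
      calc (2 * l * T) * Real.log x ≤ (2 * l * T) * (c0 / (8 * (2 * l * T + 1)) * x) :=
            mul_le_mul_of_nonneg_left h4 (by positivity)
        _ = (2 * l * T) / (2 * l * T + 1) * (c0 / 8 * x) := by field_simp
        _ ≤ 1 * (c0 / 8 * x) := by
            apply mul_le_mul_of_nonneg_right _ (by positivity)
            rw [div_le_one (by positivity)]
            linarith
        _ = c0 / 8 * x := one_mul _
    linarith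
  obtain ⟨N0, hN0⟩ := (hU.and (hT.and (hsmall.and ((hlog.eventually_ge_atTop (max lam 0)).and
    ((hlog.eventually_ge_atTop 1).and (eventually_ge_atTop 8)))))).exists_forall_of_atTop
  refine ⟨(N0 : ℝ) + 1, fun x hx => ?_⟩
  set x0 : ℕ := ⌊x⌋₊ with hx0
  have hxpos : 0 ≤ x := le_trans (by positivity) hx
  have hx0le : (x0 : ℝ) ≤ x := Nat.floor_le hxpos
  have hx0lt : x < x0 + 1 := Nat.lt_floor_add_one x
  have hN : N0 ≤ x0 := Nat.le_floor (by linarith)
  obtain ⟨hU0, hT0, hs0, hlam, hlog1, h8⟩ := hN0 x0 hN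
  set H : ℕ := ⌈l * Real.log x0⌉₊ with hH
  set L : ℕ := ⌈Real.log x0⌉₊ with hL
  have hx08 : (8 : ℝ) ≤ x0 := by exact_mod_cast h8
  have hx0pos : (0 : ℝ) < x0 := by linarith
  have hHle : (H : ℝ) ≤ 2 * l * Real.log x0 := by
    have h1 : (H : ℝ) < l * Real.log x0 + 1 := Nat.ceil_lt_add_one (by positivity)
    have h2 : 1 ≤ l * Real.log x0 := by nlinarith
    linarith
  have hLle : (L : ℝ) ≤ 2 * Real.log x0 := by
    have h1 : (L : ℝ) < Real.log x0 + 1 := Nat.ceil_lt_add_one (by linarith)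
    linarith
  -- the good set
  set U := (Ioc (x0 / 2) x0).filter (fun m : ℕ => ∃ q : ℕ, q.Prime ∧ q ≤ m ∧ m < q + L) with hUdef
  set Bd := (Ioc (x0 / 2) x0).filter (fun n => ∀ t, t ≤ T * H →
    ∃ p, p.Prime ∧ n + t < p ∧ p ≤ n + t + H) with hBd
  set G := (U \ Bd) \ (Ioc (x0 - T * H) x0) with hG
  have hUc : c0 * x0 ≤ (U.card : ℝ) := by
    convert hU0 using 2
  have hBc : (Bd.card : ℝ) ≤ c0 / 4 * x0 := by
    convert hT0 using 2
  have hcardG : (U.card : ℝ) - Bd.card - (T * H : ℕ) ≤ (G.card : ℝ) := by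
    have h1 : U.card ≤ G.card + Bd.card + (Ioc (x0 - T * H) x0).card := by
      have h2 : U ⊆ G ∪ Bd ∪ (Ioc (x0 - T * H) x0) := by
        intro m hm
        by_cases h3 : m ∈ Bd
        · simp [h3]
        · by_cases h4 : m ∈ Ioc (x0 - T * H) x0
          · simp only [mem_union]
            exact Or.inr h4
          · simp only [mem_union]
            left; left
            rw [hG, Finset.mem_sdiff, Finset.mem_sdiff]
            exact ⟨⟨hm, h3⟩, h4⟩
      refine (Finset.card_le_card h2).trans ((Finset.card_union_le _ _).trans ?_)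
      exact Nat.add_le_add_right (Finset.card_union_le _ _) _
    have h5 : (Ioc (x0 - T * H) x0).card ≤ T * H := by
      rw [Nat.card_Ioc]
      omega
    have h6 : U.card ≤ G.card + Bd.card + T * H := by omega
    have h7 : (U.card : ℝ) ≤ G.card + Bd.card + (T * H : ℕ) := by exact_mod_cast h6
    linarith
  have hTH : ((T * H : ℕ) : ℝ) ≤ (2 * l * T) * Real.log x0 := by
    push_cast
    have : (T : ℝ) * H ≤ T * (2 * l * Real.log x0) :=
      mul_le_mul_of_nonneg_left hHle (Nat.cast_nonneg _)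
    linarith
  have hGc : c0 / 2 * x0 ≤ (G.card : ℝ) := by linarith
  -- the shifts
  have hch : ∀ m ∈ G, ∃ t, t ≤ T * H ∧ ∀ p, p.Prime → m + t < p → m + t + H < p := by
    intro m hm
    rw [hG, Finset.mem_sdiff, Finset.mem_sdiff] at hm
    obtain ⟨⟨hm1, hm2⟩, _⟩ := hm
    have h3 : m ∈ Ioc (x0 / 2) x0 := (mem_filter.1 hm1).1
    have h4 : ¬ ∀ t, t ≤ T * H → ∃ p, p.Prime ∧ m + t < p ∧ p ≤ m + t + H := fun h =>
      hm2 (mem_filter.2 ⟨h3, h⟩)
    push Not at h4
    obtain ⟨t, ht, h5⟩ := h4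
    exact ⟨t, ht, h5⟩
  choose! t ht using hch
  have hmem : ∀ m ∈ G, m ∈ Ioc (x0 / 2) x0 ∧ m ≤ x0 - T * H ∧
      ∃ q, q.Prime ∧ q ≤ m ∧ m < q + L := by
    intro m hm
    rw [hG, Finset.mem_sdiff, Finset.mem_sdiff, hUdef, mem_filter] at hm
    obtain ⟨⟨⟨h1, h2⟩, _⟩, h3⟩ := hm
    refine ⟨h1, ?_, h2⟩
    by_contra h4
    push Not at h4
    exact h3 (mem_Ioc.2 ⟨h4, (mem_Ioc.1 h1).2⟩)
  have hstep := count_step x0 T H L G t (fun m hm => by
    obtain ⟨h1, _, h3⟩ := hmem m hm
    have h4 := (mem_Ioc.1 h1).1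
    exact ⟨by omega, h3, (ht m hm).1⟩)
  have hlamH : lam * Real.log x ≤ H := by
    have h1 : Real.log x ≤ Real.log x0 + 1 := by
      have h2 : Real.log x ≤ Real.log ((x0 : ℝ) * 2) :=
        Real.log_le_log (by linarith) (by linarith)
      rw [Real.log_mul (by linarith) (by norm_num)] at h2
      have h3 : Real.log 2 ≤ 1 := by
        have := Real.log_two_lt_d9
        linarith
      linarith
    have h0 : 0 ≤ Real.log x := Real.log_nonneg (by linarith)
    calc lam * Real.log x ≤ max lam 0 * Real.log x :=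
          mul_le_mul_of_nonneg_right (le_max_left _ _) h0
      _ ≤ max lam 0 * (Real.log x0 + 1) := mul_le_mul_of_nonneg_left h1 hl0
      _ ≤ l * Real.log x0 := by rw [hl]; nlinarith
      _ ≤ H := Nat.le_ceil _
  have hnc := ncard_ge (x := x) (lam := lam) hxpos (H := H) hlamH (G.image (fun m => m + t m)) (by
    intro n hn
    rw [mem_image] at hn
    obtain ⟨m, hm, rfl⟩ := hn
    obtain ⟨h1, h2, _⟩ := hmem m hm
    obtain ⟨h3, h4⟩ := ht m hm
    have h5 := mem_Ioc.1 h1
    refine ⟨by omega, ?_, ?_⟩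
    · have h6 : m + t m ≤ x0 := by
        have : 0 < m := by omega
        omega
      exact le_trans (by exact_mod_cast h6) hx0le
    · intro h h7 h8 hp
      have := h4 _ hp (by omega)
      omega)
  refine le_trans ?_ hnc
  set I : ℝ := (((G.image (fun m => m + t m)).image idx).card : ℝ) with hI
  have hI0 : 0 ≤ I := Nat.cast_nonneg _
  have h1 : (G.card : ℝ) ≤ I * ((2 * l * T + 2) * Real.log x0) := by
    have h2 : (G.card : ℝ) ≤ I * ((T * H : ℕ) + L) := by
      rw [hI]
      exact_mod_cast hstep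
    refine h2.trans (mul_le_mul_of_nonneg_left ?_ hI0)
    linarith
  have hlogpos : 0 < Real.log x0 := by linarith
  have h3 : x / Real.log x ≤ 2 * x0 / Real.log x0 := by
    have h4 : Real.log x0 ≤ Real.log x := Real.log_le_log hx0pos hx0le
    apply div_le_div₀ (by positivity) (by linarith) hlogpos h4
  calc c0 / (4 * (2 * l * T + 2)) * (x / Real.log x)
      ≤ c0 / (4 * (2 * l * T + 2)) * (2 * x0 / Real.log x0) :=
        mul_le_mul_of_nonneg_left h3 (by positivity)
    _ = (c0 / 2 * x0) / ((2 * l * T + 2) * Real.log x0) := by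
        field_simp
        ring
    _ ≤ I := by
        rw [div_le_iff₀ (by positivity)]
        linarith

end Pool.Agent.Helper88.PP
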