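import Pool.Agent.Helper88.PP.MainA
import Pool.Agent.Helper24.PP.MA
import Pool.Agent.Helper37.PP.GT

/-!
# A positive proportion of the prime gaps is larger than `λ` times the average
-/

namespace Pool.Agent.Helper88.PP

theorem main : StmtPP := mainA Pool.Agent.Helper24.PP.ma Pool.Agent.Helper37.PP.gt

end Pool.Agent.Helper88.PP
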