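import Pool.Agent.Helper88.PP.Fin
import Pool.Agent.Helper88.PP.Mo
import Pool.Agent.Helper74.PP.TL
import Pool.Agent.Helper42.PP.TRE
import Pool.Agent.Helper93.PP.TR
import Pool.Agent.Helper51.PP.RH
import Pool.Agent.Helper69.PP.CO
import Pool.Agent.Helper86.PP.RA
import Pool.Agent.Helper3.PP.TS
import Pool.Agent.Helper61.PP.S1
import Pool.Agent.Helper64.PP.S3
import Pool.Agent.Helper11.PP.PW
import Pool.Agent.Helper26.PP.S2
import Pool.Agent.Helper50.PP.S4
import Pool.Agent.Helper37.PP.HM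
import Pool.Agent.Helper39.PP.CH
import Pool.Agent.Helper33.LG.UU
import Pool.Agent.Helper67.LG.PR

/-!
# A positive proportion of the prime gaps is larger than `λ` times the average: the assembly
-/

namespace Pool.Agent.Helper88.PP

theorem mainA (ma : StmtMA) (gt : StmtTS → StmtGT) : StmtPP := by
  have h1 : StmtTS := Pool.Agent.Helper3.PP.ts Pool.Agent.Helper74.PP.tl
    (Pool.Agent.Helper93.PP.tr Pool.Agent.Helper42.PP.tre) ma (Pool.Agent.Helper69.PP.co ma)
  have h2 : StmtMO := mo Pool.Agent.Helper74.PP.tl (Pool.Agent.Helper61.PP.s1 h1)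
    (Pool.Agent.Helper26.PP.s2 Pool.Agent.Helper11.PP.pw (gt h1) Pool.Agent.Helper86.PP.ra ma)
    (Pool.Agent.Helper64.PP.s3 h1)
    (Pool.Agent.Helper50.PP.s4 Pool.Agent.Helper74.PP.tl (Pool.Agent.Helper69.PP.co ma))
    (Pool.Agent.Helper51.PP.rh ma) Pool.Agent.Helper37.PP.hb Pool.Agent.Helper37.PP.mu
    Pool.Agent.Helper39.PP.ch
  exact pp h2 (Pool.Agent.Helper33.LG.uu Pool.Agent.Helper67.LG.pr)

end Pool.Agent.Helper88.PP
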